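import Mathlib

set_option autoImplicit false

/-!
# The approximation ratio of the `k`-lookahead auction does not tend to one

We show `ρ_k ≤ 4/5` for every `k ≥ 2`.

The instance has `k + 1` bidders. The last one always has value `1`. Bidders `1, …, k - 1` have
values `1 + ε (ℓ_i + 1) / L`, where `(ℓ_1, …, ℓ_{k-1})` is uniform on a grid. Bidder `0` has value
`2` if `∑ ℓ_i` is even; if it is odd, the value is `2`, or, with probability about `2 / H`, a huge
number `H`. The optimal auction sells to bidder `0` at price `2` or `H`, according to the parity, and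
if this fails to the last bidder at price `1`; it earns about `5/2`. The top `k` bidders are
`0, …, k - 1`. As the allocation to a bidder is monotone in his value, he gets the item in the even
cases about as often as in the odd ones; it follows that a mechanism for these bidders earns at most
`2`, up to a small error.
-/

namespace Pool.Agent.K7.H42.LL.LookaheadLimit

open Finset Filter Topology

/-- A finitely supported probability distribution on the vectors of positive valuations of `n`
bidders. -/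
structure Dist (n : ℕ) where
  /-- the probability of each valuation vector -/
  prob : (Fin n → ℝ) →₀ ℝ
  nonneg : ∀ v, 0 ≤ prob v
  total : (prob.sum fun _ q => q) = 1
  pos : ∀ v ∈ prob.support, ∀ i, 0 < v i

/-- A truthful-in-expectation and individually rational mechanism for a finite set of bidders:
`x v i` is the probability that bidder `i` gets the item if the bids are `v`, and `p v i` is the
expected payment of bidder `i`. -/
structure Mechanism (ι : Type) [Fintype ι] [DecidableEq ι] where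
  /-- the allocation probabilities -/
  x : (ι → ℝ) → ι → ℝ
  /-- the expected payments -/
  p : (ι → ℝ) → ι → ℝ
  x_nonneg : ∀ v : ι → ℝ, (∀ i, 0 < v i) → ∀ i, 0 ≤ x v i
  x_sum : ∀ v : ι → ℝ, (∀ i, 0 < v i) → ∑ i, x v i ≤ 1
  truthful : ∀ v : ι → ℝ, (∀ i, 0 < v i) → ∀ (i : ι) (t : ℝ), 0 < t →
    v i * x (Function.update v i t) i - p (Function.update v i t) i ≤ v i * x v i - p v i
  ir : ∀ v : ι → ℝ, (∀ i, 0 < v i) → ∀ i, 0 ≤ v i * x v i - p v i

/-- The expected revenue of a mechanism. -/
noncomputable def revenue {n : ℕ} (D : Dist n) (M : Mechanism (Fin n)) : ℝ :=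
  D.prob.sum fun v q => q * ∑ i, M.p v i

/-- `OPT(D)`, the largest expected revenue. -/
noncomputable def OPT {n : ℕ} (D : Dist n) : ℝ := sSup (Set.range (revenue D))

/-- The set of the `k` highest bidders, with ties broken by index. -/
noncomputable def topSet {n : ℕ} (k : ℕ) (v : Fin n → ℝ) : Finset (Fin n) :=
  univ.filter fun i => (univ.filter fun j => v i < v j ∨ (v j = v i ∧ j < i)).card < k

/-- The event on which the distribution `D_K` is conditioned: the bidders outside `K` have the
values `w`, and all values of bidders in `K` are at least `max w`. -/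
def Compatible {n : ℕ} (K : Finset (Fin n)) (w : {j // j ∉ K} → ℝ) (v : Fin n → ℝ) : Prop :=
  (∀ j : {j // j ∉ K}, v j = w j) ∧ ∀ i ∈ K, ∀ j : {j // j ∉ K}, w j ≤ v i

open Classical in
/-- The probability of this event. -/
noncomputable def condTotal {n : ℕ} (D : Dist n) (K : Finset (Fin n)) (w : {j // j ∉ K} → ℝ) : ℝ :=
  D.prob.sum fun v q => if Compatible K w v then q else 0

open Classical in
/-- The expected revenue of a mechanism for the bidders of `K` under the conditional distribution
`D_K`. -/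
noncomputable def condRevenue {n : ℕ} (D : Dist n) (K : Finset (Fin n)) (w : {j // j ∉ K} → ℝ)
    (M : Mechanism K) : ℝ :=
  (D.prob.sum fun v q => if Compatible K w v then q * ∑ i : K, M.p (fun i : K => v i) i else 0) /
    condTotal D K w

/-- A `k`-lookahead mechanism for `D`: for the set `K` of the `k` highest bidders and the values `w`
of the others, the bidders of `K` are served by a revenue-maximizing mechanism for `D_K`. -/
structure Lookahead {n : ℕ} (k : ℕ) (D : Dist n) where
  /-- the mechanism which is used if the top set is `K` and the values of the others are `w` -/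
  mech : (K : Finset (Fin n)) → ({j // j ∉ K} → ℝ) → Mechanism K
  optimal : ∀ v ∈ D.prob.support, ∀ M : Mechanism (topSet k v),
    condRevenue D (topSet k v) (fun j => v j) M ≤
      condRevenue D (topSet k v) (fun j => v j) (mech (topSet k v) fun j => v j)

/-- The sum of the payments of the bidders of `K`. -/
noncomputable def Lookahead.pay {n k : ℕ} {D : Dist n} (M : Lookahead k D) (K : Finset (Fin n))
    (v : Fin n → ℝ) : ℝ :=
  ∑ i : K, (M.mech K fun j => v j).p (fun i : K => v i) i

/-- The expected revenue of a `k`-lookahead mechanism. -/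
noncomputable def Lookahead.rev {n k : ℕ} {D : Dist n} (M : Lookahead k D) : ℝ :=
  D.prob.sum fun v q => q * M.pay (topSet k v) v

/-- The approximation ratio `ρ_k` of the `k`-lookahead mechanism: the infimum, over all numbers of
bidders and all distributions `D` with `OPT(D) > 0`, of the revenue of the `k`-lookahead mechanism
divided by `OPT(D)`. -/
noncomputable def rho (k : ℕ) : EReal :=
  ⨅ (n : ℕ) (D : Dist n) (_ : 0 < OPT D) (M : Lookahead k D), ((M.rev / OPT D : ℝ) : EReal)

/-! ### Revenue-maximizing mechanisms exist -/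

section Exists

variable {ι : Type} [Fintype ι] [DecidableEq ι]

theorem Mechanism.x_le_one (M : Mechanism ι) {v : ι → ℝ} (hv : ∀ i, 0 < v i) (i : ι) :
    M.x v i ≤ 1 :=
  (single_le_sum (fun j _ => M.x_nonneg v hv j) (mem_univ i)).trans (M.x_sum v hv)

theorem Mechanism.p_le (M : Mechanism ι) {v : ι → ℝ} (hv : ∀ i, 0 < v i) (i : ι) :
    M.p v i ≤ v i := by
  have h1 := M.ir v hv i
  have h2 := M.x_le_one hv i
  nlinarith [hv i]

omit [Fintype ι] in
theorem update_pos {v : ι → ℝ} (hv : ∀ i, 0 < v i) {i : ι} {t : ℝ} (ht : 0 < t) :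
    ∀ j, 0 < Function.update v i t j := by
  intro j
  by_cases h : j = i
  · subst h; simpa using ht
  · simpa [h] using hv j

/-- The set of the utilities of bidder `i` for all his possible values. -/
def utils (M : Mechanism ι) (v : ι → ℝ) (i : ι) : Set ℝ :=
  (fun t => t * M.x (Function.update v i t) i - M.p (Function.update v i t) i) '' Set.Ioi 0

theorem utils_nonempty (M : Mechanism ι) (v : ι → ℝ) (i : ι) : (utils M v i).Nonempty :=
  ⟨_, 1, by simp, rfl⟩

theorem utils_nonneg (M : Mechanism ι) {v : ι → ℝ} (hv : ∀ i, 0 < v i) (i : ι) :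
    ∀ u ∈ utils M v i, 0 ≤ u := by
  rintro _ ⟨t, ht, rfl⟩
  have := M.ir _ (update_pos (i := i) hv ht) i
  simpa using this

theorem utils_bdd (M : Mechanism ι) {v : ι → ℝ} (hv : ∀ i, 0 < v i) (i : ι) :
    BddBelow (utils M v i) := ⟨0, fun u hu => utils_nonneg M hv i u hu⟩

/-- Raising the payments until the lowest utility is zero. -/
theorem exists_normal (M : Mechanism ι) : ∃ M' : Mechanism ι,
    ∀ v : ι → ℝ, (∀ i, 0 < v i) → ∀ i, M.p v i ≤ M'.p v i ∧ 0 ≤ M'.p v i := by
  have hup : ∀ (v : ι → ℝ) (i : ι) (t : ℝ), utils M (Function.update v i t) i = utils M v i := by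
    intro v i t
    simp [utils]
  refine ⟨⟨M.x, fun v i => M.p v i + sInf (utils M v i), M.x_nonneg, M.x_sum, ?_, ?_⟩, ?_⟩
  · intro v hv i t ht
    have := M.truthful v hv i t ht
    simp only [hup]
    linarith
  · intro v hv i
    have h1 : sInf (utils M v i) ≤ v i * M.x v i - M.p v i := by
      refine csInf_le (utils_bdd M hv i) ⟨v i, hv i, ?_⟩
      simp
    linarith
  · intro v hv i
    have h0 : 0 ≤ sInf (utils M v i) := le_csInf (utils_nonempty M v i) (utils_nonneg M hv i)
    refine ⟨le_add_of_nonneg_right h0, ?_⟩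
    have h1 : - M.p v i ≤ sInf (utils M v i) := by
      refine le_csInf (utils_nonempty M v i) ?_
      rintro _ ⟨t, ht, rfl⟩
      have h2 := M.truthful _ (update_pos (i := i) hv ht) i (v i) (hv i)
      simp only [Function.update_self, Function.update_idem, Function.update_eq_self] at h2
      have h3 := M.x_nonneg v hv i
      have h4 : 0 ≤ t * M.x v i := mul_nonneg (le_of_lt ht) h3
      linarith
    linarith

theorem exists_opt {α : Type} (s : Finset α) (c : α → ℝ) (hc : ∀ a ∈ s, 0 ≤ c a)
    (u : α → ι → ℝ) (hu : ∀ a ∈ s, ∀ i, 0 < u a i) :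
    ∃ M : Mechanism ι, ∀ M' : Mechanism ι,
      ∑ a ∈ s, c a * ∑ i, M'.p (u a) i ≤ ∑ a ∈ s, c a * ∑ i, M.p (u a) i := by
  classical
  let C : Set ((ι → ℝ) → ι → ℝ × ℝ) :=
    Set.pi Set.univ fun v => Set.pi Set.univ fun i => Set.Icc (0 : ℝ) 1 ×ˢ Set.Icc (0 : ℝ) |v i|
  have hC : IsCompact C :=
    isCompact_univ_pi fun v => isCompact_univ_pi fun i => isCompact_Icc.prod isCompact_Icc
  let F : Set ((ι → ℝ) → ι → ℝ × ℝ) := {f | ∀ v : ι → ℝ, (∀ i, 0 < v i) →
    (∑ i, (f v i).1 ≤ 1) ∧
    (∀ (i : ι) (t : ℝ), 0 < t → v i * (f (Function.update v i t) i).1 -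
      (f (Function.update v i t) i).2 ≤ v i * (f v i).1 - (f v i).2) ∧
    ∀ i, 0 ≤ v i * (f v i).1 - (f v i).2}
  have hF : IsClosed F := by
    simp only [F, Set.ofPred_forall, Set.ofPred_and]
    refine isClosed_iInter fun v => isClosed_iInter fun _ => IsClosed.inter ?_ (IsClosed.inter ?_ ?_)
    · exact isClosed_le (by fun_prop) (by fun_prop)
    · exact isClosed_iInter fun i => isClosed_iInter fun t => isClosed_iInter fun _ =>
        isClosed_le (by fun_prop) (by fun_prop)
    · exact isClosed_iInter fun i => isClosed_le (by fun_prop) (by fun_prop)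
  have hCF : IsCompact (C ∩ F) := hC.inter_right hF
  have hne : (C ∩ F).Nonempty := by
    refine ⟨fun _ _ => (0, 0), ?_, ?_⟩
    · intro v _ i _
      simp
    · intro v hv
      simp
  let Φ : ((ι → ℝ) → ι → ℝ × ℝ) → ℝ := fun f => ∑ a ∈ s, c a * ∑ i, (f (u a) i).2
  have hΦ : Continuous Φ := by
    simp only [Φ]
    fun_prop
  obtain ⟨f, ⟨hfC, hfF⟩, hmax⟩ := hCF.exists_isMaxOn hne hΦ.continuousOn
  have hf1 : ∀ v i, 0 ≤ (f v i).1 ∧ (f v i).1 ≤ 1 := by
    intro v i
    have := hfC v (Set.mem_univ _) i (Set.mem_univ _)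
    exact ⟨this.1.1, this.1.2⟩
  refine ⟨⟨fun v i => (f v i).1, fun v i => (f v i).2, fun v _ i => (hf1 v i).1,
    fun v hv => (hfF v hv).1, fun v hv => (hfF v hv).2.1, fun v hv => (hfF v hv).2.2⟩, ?_⟩
  intro M'
  obtain ⟨M, hM⟩ := exists_normal M'
  let g : (ι → ℝ) → ι → ℝ × ℝ := fun v i => if ∀ i, 0 < v i then (M.x v i, M.p v i) else (0, 0)
  have hg : ∀ v : ι → ℝ, (∀ i, 0 < v i) → g v = fun i => (M.x v i, M.p v i) := by
    intro v hv
    funext i
    simp only [g, hv, implies_true, if_true]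
  have hgC : g ∈ C := by
    intro v _ i _
    by_cases hv : ∀ i, 0 < v i
    · rw [hg v hv]
      exact ⟨⟨M.x_nonneg v hv i, M.x_le_one hv i⟩, ⟨(hM v hv i).2,
        (M.p_le hv i).trans (le_abs_self _)⟩⟩
    · simp [g, hv]
  have hgF : g ∈ F := by
    intro v hv
    rw [hg v hv]
    refine ⟨M.x_sum v hv, fun i t ht => ?_, fun i => M.ir v hv i⟩
    rw [hg _ (update_pos hv ht)]
    exact M.truthful v hv i t ht
  have h1 := hmax ⟨hgC, hgF⟩
  simp only [Φ] at h1
  refine le_trans ?_ h1
  refine sum_le_sum fun a ha => mul_le_mul_of_nonneg_left (sum_le_sum fun i _ => ?_) (hc a ha)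
  rw [hg _ (hu a ha)]
  exact (hM _ (hu a ha) i).1

end Exists

/-! ### Alternating sums of monotone functions -/

theorem alt_bound (L : ℕ) (g : ℕ → ℝ) (hg : ∀ j, j + 1 < L → g j ≤ g (j + 1))
    (h0 : ∀ j < L, 0 ≤ g j) (h1 : ∀ j < L, g j ≤ 1) :
    |∑ j ∈ range L, (-1) ^ j * g j| ≤ 1 := by
  have key : ∀ n, n < L → 0 ≤ (-1) ^ n * ∑ j ∈ range (n + 1), (-1) ^ j * g j ∧
      (-1) ^ n * ∑ j ∈ range (n + 1), (-1) ^ j * g j ≤ g n := by
    intro n
    induction n with
    | zero =>
      intro h
      simpa using h0 0 h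
    | succ n ih =>
      intro h
      obtain ⟨ih1, ih2⟩ := ih (by omega)
      have h2 := hg n h
      rw [sum_range_succ, mul_add, ← mul_assoc, ← pow_add]
      have h3 : ((-1 : ℝ)) ^ (n + 1 + (n + 1)) = 1 := Even.neg_one_pow ⟨n + 1, rfl⟩
      rw [h3, pow_succ]
      constructor <;> linarith
  rcases Nat.eq_zero_or_pos L with rfl | hL
  · simp
  · obtain ⟨n, rfl⟩ : ∃ n, L = n + 1 := ⟨L - 1, by omega⟩
    obtain ⟨h2, h3⟩ := key n (by omega)
    have h4 := h1 n (by omega)
    have h5 : |(-1 : ℝ) ^ n * ∑ j ∈ range (n + 1), (-1) ^ j * g j| =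
        |∑ j ∈ range (n + 1), (-1) ^ j * g j| := by
      rw [abs_mul, abs_pow, abs_neg, abs_one, one_pow, one_mul]
    rw [← h5, abs_of_nonneg h2]
    linarith

theorem alt_bound_fin (L : ℕ) (g : Fin L → ℝ) (hg : Monotone g) (h0 : ∀ j, 0 ≤ g j)
    (h1 : ∀ j, g j ≤ 1) : |∑ j : Fin L, (-1) ^ (j : ℕ) * g j| ≤ 1 := by
  have h := alt_bound L (fun j => if h : j < L then g ⟨j, h⟩ else 0) ?_ ?_ ?_
  · rw [Finset.sum_range] at h
    simpa using h
  · intro j hj
    have : j < L := by omega
    simp only [this, hj, dite_true]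
    exact hg (by simp [Fin.le_def])
  · intro j hj
    simpa [hj] using h0 _
  · intro j hj
    simpa [hj] using h1 _

/-- The sign of a grid point. -/
noncomputable def sgn {m L : ℕ} (l : Fin m → Fin L) : ℝ := (-1) ^ (∑ j, (l j : ℕ))

theorem grid_bound {m L : ℕ} (i : Fin m) (f : (Fin m → Fin L) → ℝ) (h0 : ∀ l, 0 ≤ f l)
    (h1 : ∀ l, f l ≤ 1) (hm : ∀ l (j : Fin L), l i ≤ j → f l ≤ f (Function.update l i j)) :
    |∑ l, sgn l * f l| ≤ (L : ℝ) ^ (m - 1) := by
  classical
  let e := Equiv.funSplitAt i (Fin L)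
  have he : ∀ (j j' : Fin L) (r : {k // k ≠ i} → Fin L),
      Function.update (e.symm (j, r)) i j' = e.symm (j', r) := by
    intro j j' r
    funext k
    by_cases hk : k = i
    · subst hk
      simp [e, Equiv.funSplitAt, Equiv.piSplitAt]
    · simp [e, Equiv.funSplitAt, Equiv.piSplitAt, hk]
  have hi : ∀ (j : Fin L) (r : {k // k ≠ i} → Fin L), e.symm (j, r) i = j := by
    intro j r
    simp [e, Equiv.funSplitAt, Equiv.piSplitAt]
  have hs : ∀ (j : Fin L) (r : {k // k ≠ i} → Fin L),
      sgn (e.symm (j, r)) = (-1) ^ (j : ℕ) * (-1) ^ (∑ k, (r k : ℕ)) := by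
    intro j r
    rw [sgn, ← pow_add, Fintype.sum_eq_add_sum_subtype_ne _ i, hi]
    congr 2
    refine Finset.sum_congr rfl fun k _ => ?_
    have : e.symm (j, r) k = r k := by
      simp [e, Equiv.funSplitAt, Equiv.piSplitAt, k.2]
    rw [this]
  rw [← Equiv.sum_comp e.symm, Fintype.sum_prod_type_right]
  refine (abs_sum_le_sum_abs _ _).trans ?_
  have hin : ∀ r : {k // k ≠ i} → Fin L,
      |∑ j : Fin L, sgn (e.symm (j, r)) * f (e.symm (j, r))| ≤ 1 := by
    intro r
    have : ∑ j : Fin L, sgn (e.symm (j, r)) * f (e.symm (j, r)) =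
        (-1) ^ (∑ k, (r k : ℕ)) * ∑ j : Fin L, (-1) ^ (j : ℕ) * f (e.symm (j, r)) := by
      rw [Finset.mul_sum]
      refine Finset.sum_congr rfl fun j _ => ?_
      rw [hs]
      ring
    rw [this, abs_mul, abs_pow, abs_neg, abs_one, one_pow, one_mul]
    refine alt_bound_fin L _ ?_ (fun j => h0 _) (fun j => h1 _)
    intro j j' hj
    have := hm (e.symm (j, r)) j' (by rw [hi]; exact hj)
    rwa [he] at this
  refine (Finset.sum_le_sum fun r _ => hin r).trans ?_
  simp

/-! ### The instance -/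

section Instance

variable {m L : ℕ}

/-- The bidders between the first and the last one. -/
def mid (i : Fin m) : Fin (m + 2) := i.castSucc.succ

theorem sum_split (F : Fin (m + 2) → ℝ) :
    ∑ j, F j = F 0 + (∑ i : Fin m, F (mid i) + F (Fin.last (m + 1))) := by
  rw [Fin.sum_univ_succ, Fin.sum_univ_castSucc]
  rfl

/-- The valuation vector: bidder `0` has value `c`, the last bidder has value `1`, and the others
have values slightly above `1`. -/
noncomputable def val (ε : ℝ) (c : ℝ) (l : Fin m → Fin L) : Fin (m + 2) → ℝ :=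
  Fin.cons c (Fin.snoc (α := fun _ => ℝ) (fun i : Fin m => 1 + ε * ((l i : ℝ) + 1) / L) 1)

@[simp] theorem val_zero (ε c : ℝ) (l : Fin m → Fin L) : val ε c l 0 = c := rfl

@[simp] theorem val_mid (ε c : ℝ) (l : Fin m → Fin L) (i : Fin m) :
    val ε c l (mid i) = 1 + ε * ((l i : ℝ) + 1) / L := by
  simp [val, mid]

@[simp] theorem val_last (ε c : ℝ) (l : Fin m → Fin L) : val ε c l (Fin.last (m + 1)) = 1 := by
  rw [← Fin.succ_last]
  simp [val]

theorem fin_cases' {P : Fin (m + 2) → Prop} (h0 : P 0) (h1 : ∀ i : Fin m, P (mid i))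
    (h2 : P (Fin.last (m + 1))) : ∀ j, P j := by
  intro j
  refine Fin.cases h0 (fun j => ?_) j
  refine Fin.lastCases ?_ (fun i => h1 i) j
  rw [Fin.succ_last]
  exact h2

theorem level_bounds {ε : ℝ} (hε : 0 < ε) (l : Fin m → Fin L) (i : Fin m) :
    1 < 1 + ε * ((l i : ℝ) + 1) / L ∧ 1 + ε * ((l i : ℝ) + 1) / L ≤ 1 + ε := by
  have hL : (0 : ℝ) < L := by
    have := (l i).2
    exact_mod_cast (by omega : 0 < L)
  have h1 : ((l i : ℕ) : ℝ) + 1 ≤ L := by exact_mod_cast (l i).2
  have h2 : (0 : ℝ) ≤ ((l i : ℕ) : ℝ) := Nat.cast_nonneg _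
  constructor
  · have : 0 < ε * ((l i : ℝ) + 1) / L := by positivity
    linarith
  · have : ε * ((l i : ℝ) + 1) / L ≤ ε := by
      rw [div_le_iff₀ hL]
      exact mul_le_mul_of_nonneg_left h1 hε.le
    linarith

theorem val_pos {ε c : ℝ} (hε : 0 < ε) (hc : 0 < c) (l : Fin m → Fin L) :
    ∀ j, 0 < val ε c l j := by
  refine fin_cases' ?_ ?_ ?_
  · simpa using hc
  · intro i
    rw [val_mid]
    have := (level_bounds hε l i).1
    linarith
  · simp

/-- The set of the bidders except the last one. -/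
def K0 (m : ℕ) : Finset (Fin (m + 2)) := univ.erase (Fin.last (m + 1))

theorem mem_K0 {j : Fin (m + 2)} : j ∈ K0 m ↔ j ≠ Fin.last (m + 1) := by simp [K0]

theorem zero_mem_K0 : (0 : Fin (m + 2)) ∈ K0 m := by
  rw [mem_K0]
  exact (Fin.last_pos (n := m)).ne

theorem mid_mem_K0 (i : Fin m) : mid i ∈ K0 m := by
  rw [mem_K0, mid, ← Fin.succ_last]
  intro h
  exact (Fin.castSucc_lt_last i).ne (Fin.succ_injective _ h)

theorem topSet_val {ε c : ℝ} (hε : 0 < ε) (hc : 1 < c) (l : Fin m → Fin L) :
    topSet (m + 1) (val ε c l) = K0 m := by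
  have h1 : ∀ j, j ≠ Fin.last (m + 1) → 1 < val ε c l j := by
    refine fin_cases' ?_ ?_ ?_
    · intro _; simpa using hc
    · intro i _
      rw [val_mid]
      exact (level_bounds hε l i).1
    · intro h; exact absurd rfl h
  have hl : val ε c l (Fin.last (m + 1)) = 1 := val_last _ _ _
  ext i
  simp only [topSet, mem_filter, mem_univ, true_and]
  rw [mem_K0]
  constructor
  · rintro h rfl
    have : (univ.filter fun j => val ε c l (Fin.last (m + 1)) < val ε c l j ∨
        (val ε c l j = val ε c l (Fin.last (m + 1)) ∧ j < Fin.last (m + 1))) = K0 m := by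
      ext j
      simp only [mem_filter, mem_univ, true_and]
      rw [mem_K0, hl]
      constructor
      · rintro (h2 | h2)
        · rintro rfl
          rw [hl] at h2
          exact lt_irrefl _ h2
        · exact h2.2.ne
      · intro hj
        exact Or.inl (h1 j hj)
    rw [this] at h
    simp [K0] at h
  · intro hi
    have : (univ.filter fun j => val ε c l i < val ε c l j ∨
        (val ε c l j = val ε c l i ∧ j < i)) ⊆ (K0 m).erase i := by
      intro j hj
      simp only [mem_filter, mem_univ, true_and] at hj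
      rw [mem_erase, mem_K0]
      constructor
      · rintro rfl
        rcases hj with hj | hj
        · exact lt_irrefl _ hj
        · exact lt_irrefl _ hj.2
      · rintro rfl
        have := h1 i hi
        rw [hl] at hj
        rcases hj with hj | hj
        · linarith
        · linarith [hj.1]
    refine lt_of_le_of_lt (card_le_card this) ?_
    rw [card_erase_of_mem (mem_K0.2 hi)]
    simp [K0]

theorem sgn_sq (l : Fin m → Fin L) : sgn l = 1 ∨ sgn l = -1 := by
  rw [sgn]
  exact neg_one_pow_eq_or ℝ _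

theorem val_injective {ε c c' : ℝ} (hε : 0 < ε) {l l' : Fin m → Fin L}
    (h : ∀ i, val ε c l (mid i) = val ε c' l' (mid i)) : l = l' := by
  funext i
  have h1 := h i
  rw [val_mid, val_mid] at h1
  have hL : (0 : ℝ) < L := by
    have := (l i).2
    exact_mod_cast (by omega : 0 < L)
  have h2 : ε * ((l i : ℝ) + 1) / L = ε * ((l' i : ℝ) + 1) / L := by linarith
  rw [div_left_inj' hL.ne', mul_right_inj' hε.ne'] at h2
  have h3 : ((l i : ℕ) : ℝ) = ((l' i : ℕ) : ℝ) := by linarith
  exact Fin.ext (by exact_mod_cast h3)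

/-- The weight of the valuation vector with `v 0 = H`. -/
noncomputable def kap (H : ℝ) (l : Fin m → Fin L) : ℝ := (1 - sgn l) / H

theorem kap_nonneg {H : ℝ} (hH : 0 < H) (l : Fin m → Fin L) : 0 ≤ kap H l := by
  rw [kap]
  refine div_nonneg ?_ hH.le
  rcases sgn_sq l with h | h <;> rw [h] <;> norm_num

/-- The total mass before normalization. -/
noncomputable def tot (m L : ℕ) (H : ℝ) : ℝ := ∑ l : Fin m → Fin L, (1 + kap H l)

theorem tot_pos {H : ℝ} (hH : 0 < H) (hL : 0 < L) : 0 < tot m L H := by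
  have : Nonempty (Fin m → Fin L) := ⟨fun _ => ⟨0, hL⟩⟩
  refine sum_pos (fun l _ => ?_) univ_nonempty
  have := kap_nonneg hH l
  linarith

/-- The unnormalized distribution. -/
noncomputable def wt (m L : ℕ) (ε H : ℝ) : (Fin (m + 2) → ℝ) →₀ ℝ :=
  ∑ l : Fin m → Fin L, (Finsupp.single (val ε 2 l) ((tot m L H)⁻¹) +
    Finsupp.single (val ε H l) ((tot m L H)⁻¹ * kap H l))

theorem wt_sum (ε H : ℝ) (F : (Fin (m + 2) → ℝ) → ℝ) :
    ((wt m L ε H).sum fun v q => q * F v) =
      (tot m L H)⁻¹ * ∑ l : Fin m → Fin L, (F (val ε 2 l) + kap H l * F (val ε H l)) := by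
  have h1 : ∀ D : (Fin (m + 2) → ℝ) →₀ ℝ,
      (D.sum fun v q => q * F v) = Finsupp.linearCombination ℝ F D := by
    intro D
    rw [Finsupp.linearCombination_apply]
    rfl
  rw [h1, wt, map_sum, mul_sum]
  refine sum_congr rfl fun l _ => ?_
  rw [map_add, Finsupp.linearCombination_single, Finsupp.linearCombination_single]
  simp only [smul_eq_mul]
  ring

theorem wt_mem {ε H : ℝ} {v : Fin (m + 2) → ℝ} (hv : v ∈ (wt m L ε H).support) :
    ∃ l : Fin m → Fin L, v = val ε 2 l ∨ v = val ε H l := by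
  by_contra hcon
  push Not at hcon
  rw [Finsupp.mem_support_iff] at hv
  apply hv
  rw [wt, Finsupp.finsetSum_apply]
  refine sum_eq_zero fun l _ => ?_
  rw [Finsupp.add_apply, Finsupp.single_eq_of_ne (hcon l).1,
    Finsupp.single_eq_of_ne (hcon l).2, add_zero]

/-- The distribution. -/
noncomputable def inst (m L : ℕ) (ε H : ℝ) (hε : 0 < ε) (hH : 0 < H) (hL : 0 < L) :
    Dist (m + 2) where
  prob := wt m L ε H
  nonneg v := by
    rw [wt, Finsupp.finsetSum_apply]
    have ht := (tot_pos (m := m) hH hL).le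
    refine sum_nonneg fun l _ => ?_
    rw [Finsupp.add_apply, Finsupp.single_apply, Finsupp.single_apply]
    have := kap_nonneg hH l
    split_ifs <;> positivity
  total := by
    have h := wt_sum (m := m) (L := L) ε H (fun _ => 1)
    simp only [mul_one] at h
    rw [h]
    exact inv_mul_cancel₀ (tot_pos hH hL).ne'
  pos v hv := by
    obtain ⟨l, rfl | rfl⟩ := wt_mem hv
    · exact val_pos hε (by norm_num) l
    · exact val_pos hε hH l

/-! ### A good auction -/

open Classical in
/-- The threshold for bidder `0`. -/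
noncomputable def thr (L : ℕ) (ε H : ℝ) (v : Fin (m + 2) → ℝ) : ℝ :=
  if ∃ l : Fin m → Fin L, sgn l = 1 ∧ ∀ i, v (mid i) = val ε 2 l (mid i) then 2 else H

theorem thr_pos {ε H : ℝ} (hH : 0 < H) (v : Fin (m + 2) → ℝ) : 0 < thr L ε H v := by
  rw [thr]
  split_ifs <;> linarith

theorem thr_val {ε H c : ℝ} (hε : 0 < ε) (l : Fin m → Fin L) :
    thr L ε H (val ε c l) = if sgn l = 1 then 2 else H := by
  rw [thr]
  congr 1
  apply propext
  constructor
  · rintro ⟨l', h1, h2⟩
    rw [val_injective hε h2]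
    exact h1
  · intro h
    exact ⟨l, h, fun i => by rw [val_mid, val_mid]⟩

theorem thr_update {ε H : ℝ} (v : Fin (m + 2) → ℝ) (j : Fin (m + 2)) (t : ℝ)
    (hj : ∀ i : Fin m, mid i ≠ j) : thr L ε H (Function.update v j t) = thr L ε H v := by
  rw [thr, thr]
  congr 1
  apply propext
  refine exists_congr fun l => and_congr_right fun _ => forall_congr' fun i => ?_
  rw [Function.update_of_ne (hj i)]

open Classical in
/-- The allocation: bidder `0` gets the item if his value is at least the threshold; else the last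
bidder gets it if his value is at least `1`. -/
noncomputable def allo (L : ℕ) (ε H : ℝ) (v : Fin (m + 2) → ℝ) : Fin (m + 2) → ℝ :=
  Fin.cons (if thr L ε H v ≤ v 0 then 1 else 0) (Fin.snoc (α := fun _ => ℝ) (fun _ : Fin m => 0)
    (if ¬ thr L ε H v ≤ v 0 ∧ 1 ≤ v (Fin.last (m + 1)) then 1 else 0))

/-- The prices. -/
noncomputable def price (L : ℕ) (ε H : ℝ) (v : Fin (m + 2) → ℝ) : Fin (m + 2) → ℝ :=
  Fin.cons (thr L ε H v) (fun _ => 1)

open Classical in
theorem allo_zero (ε H : ℝ) (v : Fin (m + 2) → ℝ) :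
    allo L ε H v 0 = if thr L ε H v ≤ v 0 then 1 else 0 := rfl

theorem allo_mid (ε H : ℝ) (v : Fin (m + 2) → ℝ) (i : Fin m) : allo L ε H v (mid i) = 0 := by
  simp [allo, mid]

open Classical in
theorem allo_last (ε H : ℝ) (v : Fin (m + 2) → ℝ) : allo L ε H v (Fin.last (m + 1)) =
    if ¬ thr L ε H v ≤ v 0 ∧ 1 ≤ v (Fin.last (m + 1)) then 1 else 0 := by
  rw [allo, ← Fin.succ_last, Fin.cons_succ, Fin.snoc_last]

theorem price_last (ε H : ℝ) (v : Fin (m + 2) → ℝ) : price L ε H v (Fin.last (m + 1)) = 1 := by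
  rw [price, ← Fin.succ_last, Fin.cons_succ]

theorem mid_ne_zero (i : Fin m) : mid i ≠ 0 := Fin.succ_ne_zero _

theorem mid_ne_last (i : Fin m) : mid i ≠ Fin.last (m + 1) := mem_K0.1 (mid_mem_K0 i)

theorem last_ne_zero : (Fin.last (m + 1)) ≠ 0 := (Fin.last_pos (n := m)).ne'

/-- The auction. -/
noncomputable def good (m L : ℕ) (ε H : ℝ) : Mechanism (Fin (m + 2)) where
  x := allo L ε H
  p v j := allo L ε H v j * price L ε H v j
  x_nonneg v _ := by
    refine fin_cases' ?_ (fun i => ?_) ?_
    · rw [allo_zero]; split_ifs <;> norm_num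
    · rw [allo_mid]
    · rw [allo_last]; split_ifs <;> norm_num
  x_sum v _ := by
    rw [sum_split, allo_zero, allo_last]
    simp only [allo_mid, sum_const_zero, zero_add]
    by_cases h : thr L ε H v ≤ v 0
    · simp [h]
    · simp only [h, if_false, not_false_eq_true, true_and, zero_add]
      split_ifs <;> norm_num
  truthful v _ := by
    refine fin_cases' ?_ (fun i => ?_) ?_
    · intro t _
      rw [allo_zero, allo_zero, thr_update v 0 t mid_ne_zero, Function.update_self]
      change v 0 * _ - _ * thr L ε H (Function.update v 0 t) ≤ v 0 * _ - _ * thr L ε H v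
      rw [thr_update v 0 t mid_ne_zero]
      split_ifs <;> linarith
    · intro t _
      rw [allo_mid, allo_mid]
      simp
    · intro t _
      rw [allo_last, allo_last, price_last, price_last, thr_update v _ t mid_ne_last,
        Function.update_self, Function.update_of_ne last_ne_zero.symm]
      by_cases h : thr L ε H v ≤ v 0
      · simp [h]
      · simp only [h, not_false_eq_true, true_and]
        split_ifs <;> linarith
  ir v _ := by
    refine fin_cases' ?_ (fun i => ?_) ?_
    · rw [allo_zero]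
      change 0 ≤ v 0 * _ - _ * thr L ε H v
      split_ifs <;> linarith
    · rw [allo_mid]
      simp
    · rw [allo_last, price_last]
      split_ifs with h
      · linarith [h.2]
      · simp

theorem good_pay (ε H : ℝ) (v : Fin (m + 2) → ℝ) : ∑ j, (good m L ε H).p v j =
    (if thr L ε H v ≤ v 0 then thr L ε H v else if 1 ≤ v (Fin.last (m + 1)) then 1 else 0) := by
  rw [sum_split]
  change allo L ε H v 0 * thr L ε H v + (∑ i : Fin m, allo L ε H v (mid i) * _ +
    allo L ε H v (Fin.last (m + 1)) * price L ε H v (Fin.last (m + 1))) = _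
  rw [allo_zero, allo_last, price_last]
  simp only [allo_mid, zero_mul, sum_const_zero, zero_add, mul_one]
  by_cases h : thr L ε H v ≤ v 0
  · simp [h]
  · simp [h]

theorem sum_const' (c : ℝ) : ∑ _l : Fin m → Fin L, c = (L : ℝ) ^ m * c := by
  simp

theorem good_revenue {ε H : ℝ} (hε : 0 < ε) (hH : 2 < H) (hL : 0 < L) (i : Fin m) :
    (tot m L H)⁻¹ * (5 / 2 * (L : ℝ) ^ m - (L : ℝ) ^ (m - 1) / 2) ≤
      revenue (inst m L ε H hε (by linarith) hL) (good m L ε H) := by
  have h1 : revenue (inst m L ε H hε (by linarith) hL) (good m L ε H) =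
      (tot m L H)⁻¹ * ∑ l : Fin m → Fin L, (5 / 2 - sgn l / 2) := by
    rw [revenue]
    change ((wt m L ε H).sum fun v q => q * ∑ i, (good m L ε H).p v i) = _
    rw [wt_sum]
    congr 1
    refine sum_congr rfl fun l _ => ?_
    rw [good_pay, good_pay, thr_val hε, thr_val hε]
    simp only [val_zero, val_last, le_refl, if_true]
    rw [kap]
    rcases sgn_sq l with h | h
    · rw [h]
      norm_num
    · rw [h]
      have h2 : ¬ ((-1 : ℝ) = 1) := by norm_num
      have h3 : ¬ (H ≤ 2) := by linarith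
      simp only [h2, if_false, h3, le_refl, if_true]
      field_simp
      norm_num
  rw [h1]
  have hZ : 0 < (tot m L H)⁻¹ := inv_pos.2 (tot_pos (by linarith) hL)
  refine mul_le_mul_of_nonneg_left ?_ hZ.le
  rw [sum_sub_distrib, sum_const', ← sum_div]
  have h2 := grid_bound (L := L) i (fun _ => 1) (fun _ => by norm_num) (fun _ => le_refl _)
    (fun _ _ _ => le_refl _)
  simp only [mul_one] at h2
  have h3 := (abs_le.1 h2).2
  linarith

/-! ### The bound for mechanisms which do not serve the last bidder -/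

/-- A mechanism for all but the last bidder, seen as functions on all valuation vectors. -/
structure Ext (m : ℕ) where
  X : (Fin (m + 2) → ℝ) → Fin (m + 2) → ℝ
  P : (Fin (m + 2) → ℝ) → Fin (m + 2) → ℝ
  x_nonneg : ∀ v : Fin (m + 2) → ℝ, (∀ i, 0 < v i) → ∀ j, 0 ≤ X v j
  x_sum : ∀ v : Fin (m + 2) → ℝ, (∀ i, 0 < v i) → X v 0 + ∑ i : Fin m, X v (mid i) ≤ 1
  truthful : ∀ v : Fin (m + 2) → ℝ, (∀ i, 0 < v i) → ∀ j, j ≠ Fin.last (m + 1) →
    ∀ t : ℝ, 0 < t →
    v j * X (Function.update v j t) j - P (Function.update v j t) j ≤ v j * X v j - P v j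
  ir : ∀ v : Fin (m + 2) → ℝ, (∀ i, 0 < v i) → ∀ j, P v j ≤ v j * X v j
  p_last : ∀ v, P v (Fin.last (m + 1)) = 0

theorem Ext.mono (E : Ext m) {v : Fin (m + 2) → ℝ} (hv : ∀ i, 0 < v i) {j : Fin (m + 2)}
    (hj : j ≠ Fin.last (m + 1)) {t : ℝ} (ht : v j ≤ t) :
    E.X v j ≤ E.X (Function.update v j t) j := by
  rcases ht.eq_or_lt with h | h
  · rw [← h, Function.update_eq_self]
  · have ht0 : 0 < t := (hv j).trans h
    have h1 := E.truthful v hv j hj t ht0
    have h2 := E.truthful _ (update_pos (i := j) hv ht0) j hj (v j) (hv j)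
    simp only [Function.update_self, Function.update_idem, Function.update_eq_self] at h2
    have h3 : (t - v j) * (E.X v j - E.X (Function.update v j t) j) ≤ 0 := by nlinarith
    have h4 : 0 < t - v j := by linarith
    nlinarith

theorem Ext.bound (E : Ext m) {ε H : ℝ} (hε : 0 < ε) (hε1 : ε < 1) (hH : 2 < H) (hL : 0 < L) :
    ((wt m L ε H).sum fun v q => q * ∑ j, E.P v j) ≤
      (tot m L H)⁻¹ * ((2 + ε + 4 / H) * (L : ℝ) ^ m + m * (L : ℝ) ^ (m - 1)) := by
  rw [wt_sum]
  have hZ : 0 < (tot m L H)⁻¹ := inv_pos.2 (tot_pos (by linarith) hL)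
  refine mul_le_mul_of_nonneg_left ?_ hZ.le
  -- the contribution of a grid point
  have hpt : ∀ l : Fin m → Fin L,
      ∑ j, E.P (val ε 2 l) j + kap H l * ∑ j, E.P (val ε H l) j ≤
        (2 + ε + 4 / H) - ∑ i : Fin m, sgn l * E.X (val ε 2 l) (mid i) := by
    intro l
    have hH0 : 0 < H := by linarith
    have hp2 := val_pos hε (by norm_num : (0 : ℝ) < 2) l
    have hpH := val_pos hε hH0 l
    set a := E.X (val ε 2 l) 0 with ha
    set B := ∑ i : Fin m, E.X (val ε 2 l) (mid i) with hB
    have ha0 : 0 ≤ a := E.x_nonneg _ hp2 0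
    have hB0 : 0 ≤ B := sum_nonneg fun i _ => E.x_nonneg _ hp2 _
    have haB : a + B ≤ 1 := E.x_sum _ hp2
    have hmid : ∀ c : ℝ, 0 < c → ∑ i : Fin m, E.P (val ε c l) (mid i) ≤
        (1 + ε) * ∑ i : Fin m, E.X (val ε c l) (mid i) := by
      intro c hc
      rw [mul_sum]
      refine sum_le_sum fun i _ => ?_
      have h1 := E.ir _ (val_pos hε hc l) (mid i)
      rw [val_mid] at h1
      have h2 := E.x_nonneg _ (val_pos hε hc l) (mid i)
      have h3 := (level_bounds hε l i).2
      nlinarith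
    have hr2 : ∑ j, E.P (val ε 2 l) j ≤ 2 * a + (1 + ε) * B := by
      rw [sum_split, E.p_last, add_zero]
      have h1 := E.ir _ hp2 0
      rw [val_zero] at h1
      have h2 := hmid 2 (by norm_num)
      linarith
    have hrH : ∑ j, E.P (val ε H l) j ≤ H * (1 - a) + 2 * a := by
      rw [sum_split, E.p_last, add_zero]
      have h1 := E.truthful _ hpH 0 (last_ne_zero.symm) 2 (by norm_num)
      have h2 : Function.update (val ε H l) 0 2 = val ε 2 l := by
        rw [val, Fin.update_cons_zero]
        rfl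
      rw [h2, val_zero] at h1
      have h3 := E.ir _ hp2 0
      rw [val_zero] at h3
      have h4 := hmid H hH0
      have h5 := E.x_sum _ hpH
      have h6 : 0 ≤ ∑ i : Fin m, E.X (val ε H l) (mid i) :=
        sum_nonneg fun i _ => E.x_nonneg _ hpH _
      have h7 : H * (E.X (val ε H l) 0 + ∑ i : Fin m, E.X (val ε H l) (mid i)) ≤ H * 1 :=
        mul_le_mul_of_nonneg_left h5 hH0.le
      have h8 : (1 + ε) * ∑ i : Fin m, E.X (val ε H l) (mid i) ≤
          H * ∑ i : Fin m, E.X (val ε H l) (mid i) :=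
        mul_le_mul_of_nonneg_right (by linarith) h6
      linarith
    rw [← mul_sum, ← hB]
    have hk0 := kap_nonneg hH0 l
    have h1 : kap H l * ∑ j, E.P (val ε H l) j ≤ kap H l * (H * (1 - a) + 2 * a) :=
      mul_le_mul_of_nonneg_left hrH hk0
    have h2 : kap H l * (H * (1 - a) + 2 * a) = (1 - sgn l) * (1 - a) + (1 - sgn l) * (2 * a / H) := by
      rw [kap]
      field_simp
    have h3 : (1 - sgn l) * (2 * a / H) ≤ 4 / H := by
      have h4 : 2 * a / H ≤ 2 / H := by
        rw [div_le_div_iff_of_pos_right hH0]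
        linarith
      have h5 : 0 ≤ 2 * a / H := by positivity
      have h6 : (4 : ℝ) / H = 2 * (2 / H) := by ring
      rw [h6]
      rcases sgn_sq l with h | h <;> rw [h]
      · have : 0 ≤ 2 / H := by positivity
        linarith
      · linarith
    rcases sgn_sq l with h | h
    · rw [h] at h2 h3 ⊢
      nlinarith
    · rw [h] at h2 h3 ⊢
      nlinarith
  refine (sum_le_sum fun l _ => hpt l).trans ?_
  rw [sum_sub_distrib, sum_const', sum_comm]
  have hi : ∀ i : Fin m, -(L : ℝ) ^ (m - 1) ≤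
      ∑ l : Fin m → Fin L, sgn l * E.X (val ε 2 l) (mid i) := by
    intro i
    have h2pos : ∀ l : Fin m → Fin L, ∀ j, 0 < val ε 2 l j := fun l =>
      val_pos hε (by norm_num : (0 : ℝ) < 2) l
    refine (abs_le.1 (grid_bound i (fun l => E.X (val ε 2 l) (mid i))
      (fun l => E.x_nonneg _ (h2pos l) _) (fun l => ?_) (fun l j hj => ?_))).1
    · have h1 := E.x_sum _ (h2pos l)
      have h2 := E.x_nonneg _ (h2pos l) 0
      have h3 : E.X (val ε 2 l) (mid i) ≤ ∑ i : Fin m, E.X (val ε 2 l) (mid i) :=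
        single_le_sum (f := fun i => E.X (val ε 2 l) (mid i))
          (fun j _ => E.x_nonneg _ (h2pos l) _) (mem_univ i)
      linarith
    · have hu : val ε 2 (Function.update l i j) =
          Function.update (val ε 2 l) (mid i) (1 + ε * ((j : ℝ) + 1) / L) := by
        funext k
        revert k
        refine fin_cases' ?_ (fun i' => ?_) ?_
        · rw [Function.update_of_ne (mid_ne_zero i).symm]
          rfl
        · by_cases h : i' = i
          · subst h
            simp
          · have : mid i' ≠ mid i := by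
              intro h'
              exact h (Fin.castSucc_injective _ (Fin.succ_injective _ h'))
            rw [Function.update_of_ne this, val_mid, val_mid, Function.update_of_ne h]
        · rw [Function.update_of_ne (mid_ne_last i).symm, val_last, val_last]
      rw [hu]
      refine E.mono (h2pos l) (mid_ne_last i) ?_
      rw [val_mid]
      have hL' : (0 : ℝ) < L := by exact_mod_cast hL
      have h1 : ((l i : ℕ) : ℝ) ≤ ((j : ℕ) : ℝ) := by exact_mod_cast hj
      have h2 : ε * ((l i : ℝ) + 1) / L ≤ ε * ((j : ℝ) + 1) / L := by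
        rw [div_le_div_iff_of_pos_right hL']
        exact mul_le_mul_of_nonneg_left (by linarith) hε.le
      linarith
  have h1 : -((m : ℝ) * (L : ℝ) ^ (m - 1)) ≤
      ∑ i : Fin m, ∑ l : Fin m → Fin L, sgn l * E.X (val ε 2 l) (mid i) := by
    have h2 := sum_le_sum fun i (_ : i ∈ (univ : Finset (Fin m))) => hi i
    simp only [sum_const, card_univ, Fintype.card_fin, nsmul_eq_mul] at h2
    linarith
  linarith

open Classical in
/-- The functions of a mechanism for `K0`. -/
noncomputable def Ext.of (M : Mechanism (K0 m)) : Ext m where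
  X v j := if h : j ∈ K0 m then M.x (fun i : K0 m => v i) ⟨j, h⟩ else 0
  P v j := if h : j ∈ K0 m then M.p (fun i : K0 m => v i) ⟨j, h⟩ else 0
  x_nonneg v hv j := by
    split_ifs with h
    · exact M.x_nonneg _ (fun i => hv i) _
    · exact le_refl _
  x_sum v hv := by
    have h1 := M.x_sum (fun i : K0 m => v i) (fun i => hv i)
    have h2 : ∑ j, (if h : j ∈ K0 m then M.x (fun i : K0 m => v i) ⟨j, h⟩ else 0) =
        ∑ i : K0 m, M.x (fun i : K0 m => v i) i := by
      rw [← sum_subset (subset_univ (K0 m))]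
      · rw [← sum_attach (K0 m)]
        exact sum_congr rfl fun i _ => by simp
      · intro j _ hj
        simp [hj]
    rw [sum_split] at h2
    have h3 : Fin.last (m + 1) ∉ K0 m := by rw [mem_K0]; simp
    simp only [h3, dite_false, add_zero] at h2
    linarith
  truthful v hv j hj t ht := by
    have h : j ∈ K0 m := mem_K0.2 hj
    have h1 := M.truthful (fun i : K0 m => v i) (fun i => hv i) ⟨j, h⟩ t ht
    have h2 : Function.update (fun i : K0 m => v i) ⟨j, h⟩ t =
        fun i : K0 m => Function.update v j t i := by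
      funext i
      by_cases hi : i = ⟨j, h⟩
      · subst hi
        simp
      · have : (i : Fin (m + 2)) ≠ j := fun h' => hi (Subtype.ext h')
        rw [Function.update_of_ne hi, Function.update_of_ne this]
    rw [h2] at h1
    simpa [h] using h1
  ir v hv j := by
    split_ifs with h
    · have := M.ir (fun i : K0 m => v i) (fun i => hv i) ⟨j, h⟩
      simp only at this
      linarith
    · simp
  p_last v := by
    have h3 : Fin.last (m + 1) ∉ K0 m := by rw [mem_K0]; simp
    simp [h3]

theorem Ext.of_sum (M : Mechanism (K0 m)) (v : Fin (m + 2) → ℝ) :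
    ∑ j, (Ext.of M).P v j = ∑ i : K0 m, M.p (fun i : K0 m => v i) i := by
  classical
  change ∑ j, (if h : j ∈ K0 m then M.p (fun i : K0 m => v i) ⟨j, h⟩ else 0) = _
  rw [← sum_subset (subset_univ (K0 m))]
  · rw [← sum_attach (K0 m)]
    exact sum_congr rfl fun i _ => by simp
  · intro j _ hj
    simp [hj]

end Instance

/-! ### The ratio -/

theorem sum_values_bound {n : ℕ} (D : Dist n) :
    BddAbove (Set.range (revenue D)) := by
  refine ⟨D.prob.sum fun v q => q * ∑ i, v i, ?_⟩
  rintro _ ⟨M, rfl⟩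
  refine sum_le_sum fun v hv => mul_le_mul_of_nonneg_left (sum_le_sum fun i _ => ?_) (D.nonneg v)
  exact M.p_le (D.pos v hv) i

/-- There is a `k`-lookahead mechanism for every distribution. -/
theorem lookahead_exists {n : ℕ} (k : ℕ) (D : Dist n) : Nonempty (Lookahead k D) := by
  classical
  have key : ∀ (K : Finset (Fin n)) (w : {j // j ∉ K} → ℝ), ∃ M : Mechanism K,
      ∀ M' : Mechanism K, condRevenue D K w M' ≤ condRevenue D K w M := by
    intro K w
    obtain ⟨M, hM⟩ := exists_opt (ι := K) (D.prob.support.filter fun v => Compatible K w v)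
      (fun v => D.prob v) (fun v _ => D.nonneg v) (fun v i => v i)
      (fun v hv i => D.pos v (mem_filter.1 hv).1 i)
    refine ⟨M, fun M' => ?_⟩
    have h := hM M'
    rw [sum_filter, sum_filter] at h
    rw [condRevenue, condRevenue]
    refine div_le_div_of_nonneg_right h ?_
    rw [condTotal]
    refine sum_nonneg fun v _ => ?_
    dsimp only
    split_ifs
    · exact D.nonneg v
    · exact le_refl _
  choose M hM using key
  exact ⟨⟨M, fun v _ M' => hM _ _ M'⟩⟩

theorem ratio_le {m L : ℕ} {ε H : ℝ} (hε : 0 < ε) (hε1 : ε < 1) (hH : 2 < H) (hL : 0 < L)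
    (i : Fin m) :
    rho (m + 1) ≤ (((2 + ε + 4 / H + m / L) / (5 / 2 - 1 / (2 * L)) : ℝ) : EReal) := by
  have hH0 : 0 < H := by linarith
  set D := inst m L ε H hε hH0 hL with hD
  have hL' : (0 : ℝ) < L := by exact_mod_cast hL
  have hL1 : (1 : ℝ) ≤ L := by exact_mod_cast hL
  have hZ : 0 < (tot m L H)⁻¹ := inv_pos.2 (tot_pos (by linarith) hL)
  have hm : m - 1 + 1 = m := by have := i.2; omega
  have hpow : (L : ℝ) ^ m = (L : ℝ) ^ (m - 1) * L := by
    rw [← pow_succ, hm]
  have hP : (0 : ℝ) < (L : ℝ) ^ (m - 1) := by positivity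
  have hden : (0 : ℝ) < 5 / 2 - 1 / (2 * L) := by
    have : 1 / (2 * (L : ℝ)) ≤ 1 / 2 := by
      rw [div_le_div_iff₀ (by positivity) (by norm_num)]
      linarith
    linarith
  have hopt : (tot m L H)⁻¹ * ((L : ℝ) ^ m * (5 / 2 - 1 / (2 * L))) ≤ OPT D := by
    refine le_trans (le_of_eq ?_) ((good_revenue hε hH hL i).trans
      (le_csSup (sum_values_bound D) ⟨_, rfl⟩))
    rw [hpow]
    field_simp
  have hoptpos : 0 < OPT D := lt_of_lt_of_le (by positivity) hopt
  obtain ⟨M⟩ := lookahead_exists (m + 1) D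
  refine (iInf_le_of_le (m + 2) (iInf_le_of_le D (iInf_le_of_le hoptpos
    (iInf_le_of_le M (le_refl _))))).trans ?_
  rw [EReal.coe_le_coe_iff, div_le_div_iff₀ hoptpos hden]
  -- the revenue of the lookahead mechanism
  have hrev : M.rev = (wt m L ε H).sum fun v q =>
      q * ∑ j, (Ext.of (M.mech (K0 m) fun _ => 1)).P v j := by
    rw [Lookahead.rev]
    refine sum_congr rfl fun v hv => ?_
    simp only
    congr 1
    have hv' : v ∈ (wt m L ε H).support := hv
    have ht : topSet (m + 1) v = K0 m ∧ v (Fin.last (m + 1)) = 1 := by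
      obtain ⟨l, rfl | rfl⟩ := wt_mem hv'
      · exact ⟨topSet_val hε (by norm_num) l, val_last _ _ _⟩
      · exact ⟨topSet_val hε (by linarith) l, val_last _ _ _⟩
    rw [ht.1, Ext.of_sum, Lookahead.pay]
    have : (fun j : {j // j ∉ K0 m} => v j) = fun _ => 1 := by
      funext j
      have hj : (j : Fin (m + 2)) = Fin.last (m + 1) := by
        by_contra h
        exact j.2 (mem_K0.2 h)
      rw [hj, ht.2]
    rw [this]
  have hb := (Ext.of (M.mech (K0 m) fun _ => 1)).bound (L := L) hε hε1 hH hL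
  rw [← hrev] at hb
  have h1 : (tot m L H)⁻¹ * ((2 + ε + 4 / H) * (L : ℝ) ^ m + m * (L : ℝ) ^ (m - 1)) =
      (tot m L H)⁻¹ * (L : ℝ) ^ m * (2 + ε + 4 / H + m / L) := by
    rw [hpow]
    field_simp
  rw [h1] at hb
  have hN : (0 : ℝ) ≤ 2 + ε + 4 / H + m / L := by positivity
  calc M.rev * (5 / 2 - 1 / (2 * (L : ℝ)))
      ≤ ((tot m L H)⁻¹ * (L : ℝ) ^ m * (2 + ε + 4 / H + m / L)) * (5 / 2 - 1 / (2 * (L : ℝ))) :=
        mul_le_mul_of_nonneg_right hb hden.le
    _ = (2 + ε + 4 / H + m / L) *
        ((tot m L H)⁻¹ * ((L : ℝ) ^ m * (5 / 2 - 1 / (2 * (L : ℝ))))) := by ring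
    _ ≤ (2 + ε + 4 / H + m / L) * OPT D := mul_le_mul_of_nonneg_left hopt hN

theorem rho_le (k : ℕ) (hk : 2 ≤ k) : rho k ≤ ((4 / 5 : ℝ) : EReal) := by
  obtain ⟨m, rfl⟩ : ∃ m, k = m + 1 := ⟨k - 1, by omega⟩
  have i : Fin m := ⟨0, by omega⟩
  have h : ∀ L : ℕ, rho (m + 1) ≤ (((2 + 1 / ((L : ℝ) + 2) + 4 / (4 * ((L : ℝ) + 2)) +
      m / ((L : ℝ) + 2)) / (5 / 2 - 1 / (2 * ((L : ℝ) + 2))) : ℝ) : EReal) := by
    intro L
    have h := ratio_le (m := m) (L := L + 2) (ε := 1 / ((L : ℝ) + 2)) (H := 4 * ((L : ℝ) + 2))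
      (by positivity) (by rw [div_lt_one (by positivity)]; linarith [Nat.cast_nonneg (α := ℝ) L])
      (by linarith [Nat.cast_nonneg (α := ℝ) L]) (by omega) i
    push_cast at h
    exact h
  have h0 : Tendsto (fun L : ℕ => ((L : ℝ) + 2)⁻¹) atTop (𝓝 0) :=
    tendsto_inv_atTop_zero.comp (tendsto_atTop_add_const_right _ _ tendsto_natCast_atTop_atTop)
  have hlim : Tendsto (fun L : ℕ => (2 + 1 / ((L : ℝ) + 2) + 4 / (4 * ((L : ℝ) + 2)) +
      m / ((L : ℝ) + 2)) / (5 / 2 - 1 / (2 * ((L : ℝ) + 2)))) atTop (𝓝 (4 / 5)) := by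
    have h1 : Tendsto (fun L : ℕ => (2 + ((L : ℝ) + 2)⁻¹ + ((L : ℝ) + 2)⁻¹ +
        m * ((L : ℝ) + 2)⁻¹) / (5 / 2 - 1 / 2 * ((L : ℝ) + 2)⁻¹)) atTop
        (𝓝 ((2 + 0 + 0 + m * 0) / (5 / 2 - 1 / 2 * 0))) :=
      ((((tendsto_const_nhds.add h0).add h0).add (h0.const_mul _))).div
        (tendsto_const_nhds.sub (h0.const_mul _)) (by norm_num)
    have h2 : ((2 + 0 + 0 + (m : ℝ) * 0) / (5 / 2 - 1 / 2 * 0)) = 4 / 5 := by norm_num
    rw [h2] at h1
    refine h1.congr fun L => ?_
    have : ((L : ℝ) + 2) ≠ 0 := by positivity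
    congr 1
    · field_simp
    · field_simp
  have hE := (continuous_coe_real_ereal.tendsto (4 / 5 : ℝ)).comp hlim
  exact ge_of_tendsto' hE h

/-- **The approximation ratio `ρ_k` of the `k`-lookahead mechanism is at most `4/5` for every
`k ≥ 2`; in particular it does not tend to `1` as `k → ∞`.** -/
theorem result : (∀ k : ℕ, 2 ≤ k → rho k ≤ ((4 / 5 : ℝ) : EReal)) ∧
    ¬ Tendsto rho atTop (𝓝 1) := by
  refine ⟨rho_le, fun h => ?_⟩
  have h1 : (1 : EReal) ≤ ((4 / 5 : ℝ) : EReal) :=
    le_of_tendsto h (eventually_atTop.2 ⟨2, rho_le⟩)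
  have h2 : ((1 : ℝ) : EReal) ≤ ((4 / 5 : ℝ) : EReal) := h1
  rw [EReal.coe_le_coe_iff] at h2
  norm_num at h2

end Pool.Agent.K7.H42.LL.LookaheadLimit
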